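import Pool.Agent.Run7.h784.TG.StmA

/-!
# STK: the parity of the number of factors

Project TG (helper784); helper760.
-/

set_option autoImplicit false
set_option linter.all false

open Polynomial
open scoped Classical

namespace Run7.h760.TG

open Run7.h875.TS (chi)

section res

variable {K : Type} [Field K]

/-- the resultant of a monic polynomial does not depend on the degree of the second one -/
theorem res_deg {a g : K[X]} (ha : a.Monic) {N : ℕ} (hg : g.natDegree ≤ N) :
    resultant a g a.natDegree N = resultant a g := by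
  obtain ⟨c, rfl⟩ := Nat.exists_eq_add_of_le hg
  rw [resultant_add_right_deg _ _ _ _ _ le_rfl, coeff_natDegree, ha.leadingCoeff, one_pow, one_mul]

theorem res_mul_right {a : K[X]} (ha : a.Monic) (g h : K[X]) :
    resultant a (g * h) = resultant a g * resultant a h := by
  rw [← resultant_mul_right a g h _ le_rfl, ← res_deg ha natDegree_mul_le]

theorem res_mul_left {a b : K[X]} (ha : a.Monic) (hb : b.Monic) (g : K[X]) :
    resultant (a * b) g = resultant a g * resultant b g := by
  rw [← resultant_mul_left a b g _ le_rfl, ha.natDegree_mul hb]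

theorem res_add_mul {a : K[X]} (ha : a.Monic) (g h : K[X]) :
    resultant a (g + a * h) = resultant a g := by
  set N := g.natDegree + (g + a * h).natDegree + (h.natDegree + a.natDegree) with hN
  rw [← res_deg ha (N := N) (by omega), ← res_deg ha (g := g) (N := N) (by omega)]
  exact resultant_add_mul_right _ _ _ _ _ (by omega) le_rfl

/-- the discriminant of a monic polynomial -/
noncomputable def Dl (p : K[X]) : K :=
  (-1) ^ (p.natDegree * (p.natDegree - 1) / 2) * resultant p (derivative p)

theorem tri (n : ℕ) : n * (n - 1) / 2 * 2 = n * (n - 1) := by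
  refine Nat.div_mul_cancel ?_
  exact (Nat.even_mul_pred_self n).two_dvd

theorem tri_add (n m : ℕ) : (n + m) * (n + m - 1) / 2 =
    n * (n - 1) / 2 + m * (m - 1) / 2 + n * m := by
  have h1 := tri n
  have h2 := tri m
  have h3 := tri (n + m)
  have h4 : (n + m) * (n + m - 1) = n * (n - 1) + m * (m - 1) + 2 * (n * m) := by
    rcases n with _ | n
    · simp
    rcases m with _ | m
    · simp
    simp only [Nat.add_sub_cancel, show n + 1 + (m + 1) - 1 = n + m + 1 by omega]
    ring
  omega

theorem Dl_mul {a b : K[X]} (ha : a.Monic) (hb : b.Monic) :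
    Dl (a * b) = Dl a * Dl b * (resultant a b) ^ 2 := by
  have e0 : Dl (a * b) = (-1) ^ ((a.natDegree + b.natDegree) *
      (a.natDegree + b.natDegree - 1) / 2) * resultant (a * b) (derivative (a * b)) := by
    unfold Dl
    rw [ha.natDegree_mul hb]
  rw [e0, tri_add, derivative_mul, res_mul_left ha hb]
  unfold Dl
  have e1 : resultant a (derivative a * b + a * derivative b) =
      resultant a (derivative a) * resultant a b := by
    rw [res_add_mul ha, res_mul_right ha]
  have e2 : resultant b (derivative a * b + a * derivative b) =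
      resultant b (derivative b) * ((-1) ^ (a.natDegree * b.natDegree) * resultant a b) := by
    rw [add_comm, mul_comm (derivative a) b, res_add_mul hb, mul_comm a, res_mul_right hb,
      resultant_comm b a, mul_comm b.natDegree]
  rw [e1, e2, pow_add, pow_add]
  have e3 : ((-1 : K) ^ (a.natDegree * b.natDegree)) * (-1) ^ (a.natDegree * b.natDegree) = 1 := by
    rw [← pow_add, ← two_mul, pow_mul, neg_one_sq, one_pow]
  linear_combination (-1) ^ (a.natDegree * (a.natDegree - 1) / 2) *
    (-1) ^ (b.natDegree * (b.natDegree - 1) / 2) * resultant a (derivative a) * resultant a b ^ 2 *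
    resultant b (derivative b) * e3

theorem Dl_one : Dl (1 : K[X]) = 1 := by
  unfold Dl
  simp

theorem Dl_X_sub_C (c : K) : Dl (X - C c) = 1 := by
  unfold Dl
  simp

theorem Dl_map {K' : Type} [Field K'] (φ : K →+* K') {p : K[X]} (hp : p.Monic) :
    Dl (p.map φ) = φ (Dl p) := by
  unfold Dl
  rw [natDegree_map, derivative_map, map_mul, map_pow, map_neg, map_one, ← resultant_map_map,
    natDegree_map]

/-- the product of the differences -/
noncomputable def vd (x : ℕ → K) (n : ℕ) : K :=
  ∏ i ∈ Finset.range n, ∏ j ∈ Finset.range i, (x i - x j)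

theorem Dl_prod (x : ℕ → K) (n : ℕ) :
    Dl (∏ i ∈ Finset.range n, (X - C (x i))) = vd x n ^ 2 := by
  induction n with
  | zero => simp [vd, Dl_one]
  | succ n ih =>
    have hm : (∏ i ∈ Finset.range n, (X - C (x i))).Monic :=
      monic_prod_of_monic _ _ fun i _ => monic_X_sub_C _
    rw [Finset.prod_range_succ, mul_comm, Dl_mul (monic_X_sub_C _) hm, Dl_X_sub_C, ih, vd,
      vd, Finset.prod_range_succ, natDegree_X_sub_C, resultant_X_sub_C_left _ _ _ le_rfl,
      eval_prod]
    simp only [eval_sub, eval_X, eval_C]
    ring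

theorem vd_shift (x : ℕ → K) (e : ℕ) (h : x (e + 1) = x 0) :
    vd (fun i => x (i + 1)) (e + 1) = (-1) ^ e * vd x (e + 1) := by
  have e1 : vd x (e + 1) = (∏ i ∈ Finset.range e, ∏ j ∈ Finset.range i, (x (i + 1) - x (j + 1))) *
      ∏ i ∈ Finset.range e, (x (i + 1) - x 0) := by
    rw [vd, Finset.prod_range_succ', Finset.range_zero, Finset.prod_empty, mul_one,
      ← Finset.prod_mul_distrib]
    refine Finset.prod_congr rfl fun i _ => ?_
    rw [Finset.prod_range_succ']
  have e2 : vd (fun i => x (i + 1)) (e + 1) =
      (∏ i ∈ Finset.range e, ∏ j ∈ Finset.range i, (x (i + 1) - x (j + 1))) *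
      ∏ j ∈ Finset.range e, (x 0 - x (j + 1)) := by
    rw [vd, Finset.prod_range_succ, h]
  have e3 : ∏ j ∈ Finset.range e, (x 0 - x (j + 1)) =
      (-1) ^ e * ∏ i ∈ Finset.range e, (x (i + 1) - x 0) := by
    rw [← Finset.card_range e, ← Finset.prod_const, Finset.card_range, ← Finset.prod_mul_distrib]
    refine Finset.prod_congr rfl fun i _ => ?_
    ring
  rw [e1, e2, e3]
  ring

end res

section irr

variable {F : Type} [Field F] [Fintype F]

/-- the elements fixed by the Frobenius map -/
theorem mem_range {E : Type} [Field E] [Algebra F E] {x : E} (hx : x ^ Fintype.card F = x) :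
    ∃ c : F, algebraMap F E c = x := by
  have h1 : (1 : ℕ) < Fintype.card F := Fintype.one_lt_card
  have hr := FiniteField.roots_X_pow_card_sub_X F
  have hd : (X ^ Fintype.card F - X : F[X]).natDegree = Fintype.card F :=
    FiniteField.X_pow_card_sub_X_natDegree_eq F h1
  have hm : (X ^ Fintype.card F - X : F[X]).Monic := by
    refine monic_X_pow_sub ?_
    rw [degree_X]
    exact_mod_cast h1
  have hs : (X ^ Fintype.card F - X : F[X]) = ∏ c : F, (X - C c) := by
    have := prod_multiset_X_sub_C_of_monic_of_roots_card_eq hm (by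
      rw [hr, hd]
      rfl)
    rw [hr] at this
    exact this.symm
  have h2 : aeval x (X ^ Fintype.card F - X : F[X]) = 0 := by
    rw [map_sub, map_pow, aeval_X, hx, sub_self]
  rw [hs, map_prod] at h2
  obtain ⟨c, -, hc⟩ := Finset.prod_eq_zero_iff.1 h2
  refine ⟨c, ?_⟩
  rw [map_sub, aeval_X, aeval_C, sub_eq_zero] at hc
  exact hc.symm

theorem chi_irr (h2 : (2 : F) ≠ 0) {a : F[X]} (ha : a.Monic) (hi : Irreducible a) :
    chi (Dl a) = (-1) ^ (a.natDegree + 1) := by
  haveI : Fact (Irreducible a) := ⟨hi⟩
  set E := AdjoinRoot a with hE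
  set pb := AdjoinRoot.powerBasis ha.ne_zero with hpb
  haveI : Module.Finite F E := pb.finite
  haveI : Finite E := Module.finite_of_finite F
  letI : Fintype E := Fintype.ofFinite E
  have hfr : Module.finrank F E = a.natDegree := by
    rw [pb.finrank, hpb, AdjoinRoot.powerBasis_dim]
  have hpos : 0 < a.natDegree := hi.natDegree_pos
  obtain ⟨e, he⟩ : ∃ e, a.natDegree = e + 1 := Nat.exists_eq_succ_of_ne_zero hpos.ne'
  have hcard : Fintype.card E = Fintype.card F ^ a.natDegree := by
    rw [← hfr]
    exact Module.card_eq_pow_finrank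
  set φ := FiniteField.frobeniusAlgHom F E with hφ
  have hφa : ∀ x : E, φ x = x ^ Fintype.card F := fun x => rfl
  set x : ℕ → E := fun i => (AdjoinRoot.root a) ^ (Fintype.card F ^ i) with hx
  have hx1 : ∀ i, φ (x i) = x (i + 1) := by
    intro i
    rw [hφa, hx]
    simp only
    rw [← pow_mul, ← pow_succ]
  have hxn : x a.natDegree = x 0 := by
    rw [hx]
    simp only
    rw [← hcard, FiniteField.pow_card, pow_zero, pow_one]
  have hroot : ∀ i, aeval (x i) a = 0 := by
    intro i
    induction i with
    | zero =>
      rw [hx]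
      simp only [pow_zero, pow_one]
      rw [AdjoinRoot.aeval_eq, AdjoinRoot.mk_self]
    | succ i ih =>
      rw [← hx1, aeval_algHom_apply, ih, map_zero]
  have hpow : ∀ j i, ((φ ^ j : E →ₐ[F] E)) (x i) = x (i + j) := by
    intro j
    induction j with
    | zero => intro i; rfl
    | succ j ih =>
      intro i
      rw [pow_succ, AlgHom.mul_apply, hx1, ih]
      congr 1
      omega
  have hinj : Set.InjOn x (Finset.range a.natDegree : Set ℕ) := by
    have key : ∀ i j, i < j → j < a.natDegree → x i ≠ x j := by
      intro i j hij hj h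
      obtain ⟨c, rfl⟩ := Nat.exists_eq_add_of_lt hij
      have h3 : (φ ^ i : E →ₐ[F] E) (x 0) = (φ ^ i : E →ₐ[F] E) (x (c + 1)) := by
        rw [hpow, hpow, zero_add, h]
        congr 1
        omega
      have h4 : x 0 = x (c + 1) := (φ ^ i : E →ₐ[F] E).injective h3
      have h5 : (φ ^ (c + 1) : E →ₐ[F] E) = 1 := by
        refine AdjoinRoot.algHom_ext ?_
        have h6 := hpow (c + 1) 0
        rw [zero_add, ← h4] at h6
        have h7 : x 0 = AdjoinRoot.root a := by
          rw [hx]
          simp only [pow_zero, pow_one]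
        rw [h7] at h6
        exact h6
      have h8 : orderOf φ = a.natDegree := by
        rw [hφ, FiniteField.orderOf_frobeniusAlgHom, hfr]
      have h9 := orderOf_dvd_of_pow_eq_one h5
      rw [h8] at h9
      have := Nat.le_of_dvd (by omega) h9
      omega
    intro i hi' j hj' h
    rw [Finset.mem_coe, Finset.mem_range] at hi' hj'
    rcases lt_trichotomy i j with h3 | h3 | h3
    · exact absurd h (key i j h3 hj')
    · exact h3
    · exact absurd h.symm (key j i h3 hi')
  have hprod : a.map (algebraMap F E) = ∏ i ∈ Finset.range a.natDegree, (X - C (x i)) := by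
    have hdvd : (∏ i ∈ Finset.range a.natDegree, (X - C (x i))) ∣ a.map (algebraMap F E) := by
      refine Finset.prod_dvd_of_coprime ?_ ?_
      · intro i hi' j hj' hij
        exact isCoprime_X_sub_C_of_isUnit_sub
          (sub_ne_zero.2 fun h => hij (hinj hi' hj' h)).isUnit
      · intro i _
        rw [dvd_iff_isRoot, IsRoot, eval_map_algebraMap]
        exact hroot i
    have hm : (∏ i ∈ Finset.range a.natDegree, (X - C (x i))).Monic :=
      monic_prod_of_monic _ _ fun i _ => monic_X_sub_C _
    refine (eq_of_monic_of_dvd_of_natDegree_le hm (ha.map _) hdvd ?_)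
    rw [natDegree_map, natDegree_prod_of_monic _ _ fun i _ => monic_X_sub_C _]
    simp
  set δ := vd x (e + 1) with hδ
  have hD : algebraMap F E (Dl a) = δ ^ 2 := by
    rw [← Dl_map _ ha, hprod, Dl_prod, he]
  have hφδ : φ δ = (-1) ^ e * δ := by
    rw [hδ, ← vd_shift x e (by rw [← he, hxn]), vd, vd, map_prod]
    refine Finset.prod_congr rfl fun i _ => ?_
    rw [map_prod]
    refine Finset.prod_congr rfl fun j _ => ?_
    rw [map_sub, hx1, hx1]
  have hδ0 : δ ≠ 0 := by
    rw [hδ, vd, Finset.prod_ne_zero_iff]
    intro i hi'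
    rw [Finset.prod_ne_zero_iff]
    intro j hj' h
    rw [Finset.mem_range] at hi' hj'
    have := hinj (Finset.mem_coe.2 (Finset.mem_range.2 (by omega)))
      (Finset.mem_coe.2 (Finset.mem_range.2 (by omega))) (sub_eq_zero.1 h)
    omega
  have hD0 : Dl a ≠ 0 := by
    intro h
    rw [h, map_zero] at hD
    exact hδ0 (pow_eq_zero_iff (two_ne_zero) |>.1 hD.symm)
  rcases Nat.even_or_odd e with hev | hodd
  · rw [hev.neg_one_pow, one_mul] at hφδ
    obtain ⟨c, hc⟩ := mem_range (F := F) (x := δ) (by rw [← hφa]; exact hφδ)
    have h3 : IsSquare (Dl a) := ⟨c, (algebraMap F E).injective (by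
      rw [hD, map_mul, hc, pow_two])⟩
    unfold chi
    rw [(quadraticChar_one_iff_isSquare hD0).2 h3, he, Even.neg_one_pow]
    · norm_num
    · rw [add_assoc]
      exact hev.add ⟨1, rfl⟩
  · rw [hodd.neg_one_pow, neg_one_mul] at hφδ
    have h3 : ¬ IsSquare (Dl a) := by
      rintro ⟨c, hc⟩
      have h4 : (δ - algebraMap F E c) * (δ + algebraMap F E c) = 0 := by
        rw [hc, map_mul] at hD
        linear_combination -hD
      have h5 : φ δ = δ := by
        rcases mul_eq_zero.1 h4 with h | h
        · rw [sub_eq_zero.1 h, AlgHom.commutes]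
        · rw [eq_neg_of_add_eq_zero_left h, map_neg, AlgHom.commutes]
      rw [hφδ] at h5
      have h6 : (2 : E) * δ = 0 := by linear_combination -h5
      rcases mul_eq_zero.1 h6 with h | h
      · apply h2
        apply (algebraMap F E).injective
        rw [map_ofNat, map_zero, h]
      · exact hδ0 h
    unfold chi
    rw [quadraticChar_neg_one_iff_not_isSquare.2 h3, he, Odd.neg_one_pow]
    · norm_num
    · rw [add_assoc]
      exact hodd.add_even ⟨1, rfl⟩

theorem chi_mul (x y : F) : chi (x * y) = chi x * chi y := by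
  unfold chi
  rw [map_mul]
  push_cast
  ring

theorem chi_sq {x : F} (hx : x ≠ 0) : chi (x ^ 2) = 1 := by
  unfold chi
  rw [(quadraticChar_one_iff_isSquare (pow_ne_zero 2 hx)).2 ⟨x, pow_two x⟩]
  norm_num

theorem chi_prod (h2 : (2 : F) ≠ 0) (s : Multiset F[X]) :
    (∀ a ∈ s, a.Monic ∧ Irreducible a) → Squarefree s.prod →
      chi (Dl s.prod) = (-1) ^ (s.prod.natDegree + Multiset.card s) := by
  induction s using Multiset.induction_on with
  | empty =>
    intro _ _
    rw [Multiset.prod_zero, Dl_one]
    unfold chi
    simp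
  | cons a s ih =>
    intro h hsq
    rw [Multiset.prod_cons] at hsq ⊢
    have ha := h a (Multiset.mem_cons_self _ _)
    have hs : ∀ b ∈ s, b.Monic ∧ Irreducible b := fun b hb => h b (Multiset.mem_cons_of_mem hb)
    have hm : s.prod.Monic := by
      have := monic_multiset_prod_of_monic s (fun b : F[X] => b) (fun b hb => (hs b hb).1)
      rwa [Multiset.map_id'] at this
    have hcop : IsCoprime a s.prod := by
      rw [ha.2.coprime_iff_not_dvd]
      intro hd
      exact ha.2.not_isUnit (hsq a (mul_dvd_mul_left a hd))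
    have hne : resultant a s.prod ≠ 0 := resultant_ne_zero _ _ hcop
    rw [Dl_mul ha.1 hm, chi_mul, chi_mul, chi_sq hne, chi_irr h2 ha.1 ha.2,
      ih hs (hsq.squarefree_of_dvd (dvd_mul_left _ _)), ha.1.natDegree_mul hm,
      Multiset.card_cons]
    ring

end irr

open Run7.h784.TG (nf evt Fm)
open Pool.Agent.N352.PJ (dsc)

theorem stk : Run7.h784.TG.P_STK := by
  intro k F _ _ _ _ _ g N r f t hf hd
  set p := f.map (evt (k := k) t) with hp
  have hmon : f.Monic := hf.fam.ht.mon
  have hdeg : f.natDegree = 2 * g + 1 := hf.fam.ht.deg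
  have hpm : p.Monic := hmon.map _
  have hpd : p.natDegree = 2 * g + 1 := by rw [hp, hmon.natDegree_map, hdeg]
  have h2 : (2 : F) ≠ 0 := by
    intro h0
    apply hf.two
    apply (algebraMap k F).injective
    rw [map_ofNat, map_zero, h0]
  have hev : ∀ q : k[X], evt (k := k) t q = aeval t q := fun q => rfl
  have hres : resultant p (derivative p) = aeval t (dsc g f) := by
    rw [← res_deg hpm (N := 2 * g) (by
      have := natDegree_derivative_le p
      omega), hpd, hp, derivative_map, resultant_map_map, hev]
    rfl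
  have hne : resultant p (derivative p) ≠ 0 := by rw [hres]; exact hd
  have hcop : IsCoprime p (derivative p) := by
    by_contra h
    exact hne (resultant_eq_zero_iff.2 ⟨Or.inl hpm.ne_zero, h⟩)
  have hsep : p.Separable := hcop
  have hsq : Squarefree p := hsep.squarefree
  set s := UniqueFactorizationMonoid.normalizedFactors p with hs
  have hs1 : ∀ a ∈ s, a.Monic ∧ Irreducible a := by
    intro a ha
    refine ⟨?_, UniqueFactorizationMonoid.irreducible_of_normalized_factor a ha⟩
    have h3 := UniqueFactorizationMonoid.normalize_normalized_factor a ha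
    rw [← h3]
    exact monic_normalize (UniqueFactorizationMonoid.irreducible_of_normalized_factor a ha).ne_zero
  have hprod : s.prod = p := by
    have h3 := UniqueFactorizationMonoid.prod_normalizedFactors_eq hpm.ne_zero
    rw [hs, h3, hpm.normalize_eq_self]
  have hkey := chi_prod h2 s hs1 (by rw [hprod]; exact hsq)
  refine ⟨?_, hsq, ?_⟩
  · unfold nf
    rw [← hp, ← hs]
    rcases Nat.eq_zero_or_pos (Multiset.card s) with h3 | h3
    · rw [Multiset.card_eq_zero] at h3
      rw [h3, Multiset.prod_zero] at hprod
      rw [← hprod, natDegree_one] at hpd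
      omega
    · exact h3
  · rw [hprod, hpd] at hkey
    unfold nf
    rw [← hp, ← hs]
    have h4 : Dl p = aeval t (C ((-1) ^ g) * dsc g f) := by
      rw [show Dl p = (-1) ^ (p.natDegree * (p.natDegree - 1) / 2) *
          resultant p (derivative p) from rfl, hres, hpd, map_mul, aeval_C, map_pow, map_neg,
        map_one,
        show (2 * g + 1) * (2 * g + 1 - 1) / 2 = g + 2 * (g * g) by
          rw [Nat.add_sub_cancel, show (2 * g + 1) * (2 * g) = (g + 2 * (g * g)) * 2 by ring,
            Nat.mul_div_cancel _ two_pos], pow_add, pow_mul, neg_one_sq, one_pow, mul_one]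
    rw [← h4, hkey, show 2 * g + 1 + Multiset.card s = 2 * g + (Multiset.card s + 1) by ring,
      pow_add, pow_mul, neg_one_sq, one_pow, one_mul]

end Run7.h760.TG
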